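import Pool.Agent.Work.MP_5cb0a4_pr.Main

open MeasureTheory ProbabilityTheory Filter

namespace Pool.Agent.Work.MP_5cb0a4_pr.Edge

lemma fin3 (i : Fin 3) : i = 0 ∨ i = 1 ∨ i = 2 := by fin_cases i <;> simp

/-- Every even vertex is matched upwards for the signs `ε` and not in direction `k`. -/
def EdgeC (ε : Fin 3 → ℤ) (k : Fin 3) (τ : Dimer) : Prop :=
  ∀ x, IsEven x → ht ε (τ.1 x) = ht ε x + 1 ∧ τ.1 x k = x k

lemma isEven_nbr {x y : V} (h : Nbr x y) : IsEven y ↔ ¬ IsEven x := by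
  unfold Nbr at h
  unfold IsEven
  simp only [Fin.sum_univ_three, Int.abs_eq_natAbs, Int.even_iff] at h ⊢
  omega

lemma step_mem {ε : Fin 3 → ℤ} (hε : ∀ i, ε i = 1 ∨ ε i = -1) (i : Fin 3) {x y : V}
    (h : Nbr x y) (h1 : ht ε y = ht ε x + 1) :
    ε i * y i = ε i * x i ∨ ε i * y i = ε i * x i + 1 := by
  unfold Nbr at h
  unfold ht at h1
  simp only [Fin.sum_univ_three, Int.abs_eq_natAbs] at h h1
  rcases hε 0 with h0 | h0 <;> rcases hε 1 with h2 | h2 <;> rcases hε 2 with h3 | h3 <;>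
    rw [h0, h2, h3] at h1 <;> rcases fin3 i with rfl | rfl | rfl <;>
    simp only [h0, h2, h3] <;> omega

lemma step_ext {ε : Fin 3 → ℤ} (hε : ∀ i, ε i = 1 ∨ ε i = -1) {k i : Fin 3} (hi : i ≠ k)
    {x y x' y' : V} (h1 : ht ε y = ht ε x + 1) (h2 : y k = x k)
    (h1' : ht ε y' = ht ε x' + 1) (h2' : y' k = x' k)
    (he : ε i * y i - ε i * x i = ε i * y' i - ε i * x' i) : y - x = y' - x' := by
  unfold ht at h1 h1'
  simp only [Fin.sum_univ_three] at h1 h1'
  funext j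
  simp only [Pi.sub_apply]
  rcases hε 0 with h0 | h0 <;> rcases hε 1 with h4 | h4 <;> rcases hε 2 with h3 | h3 <;>
    rw [h0, h4, h3] at h1 h1' <;> rcases fin3 i with rfl | rfl | rfl <;>
    rcases fin3 k with rfl | rfl | rfl <;> first
      | exact absurd rfl hi
      | (simp only [h0, h4, h3] at he
         rcases fin3 j with rfl | rfl | rfl <;> omega)

section comb
variable {ε : Fin 3 → ℤ} (hε : ∀ i, ε i = 1 ∨ ε i = -1) {k : Fin 3} {τ₁ τ₂ : Dimer}
  (h₁ : EdgeC ε k τ₁) (h₂ : EdgeC ε k τ₂)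
include hε h₁ h₂

lemma nxt {i : Fin 3} (hi : i ≠ k) {x : V} (hx : IsEven x) (hne : τ₁.1 x ≠ τ₂.1 x) :
    IsEven (τ₂.1 (τ₁.1 x)) ∧ τ₁.1 (τ₂.1 (τ₁.1 x)) ≠ τ₂.1 (τ₂.1 (τ₁.1 x)) ∧
      ε i * τ₁.1 (τ₂.1 (τ₁.1 x)) i - ε i * τ₂.1 (τ₁.1 x) i = ε i * τ₁.1 x i - ε i * x i ∧
      ε i * τ₂.1 (τ₁.1 x) i = ε i * x i + (2 * (ε i * τ₁.1 x i - ε i * x i) - 1) := by
  have hy : τ₂.1 (τ₂.1 (τ₁.1 x)) = τ₁.1 x := (τ₂.2 _).2
  have hx' : IsEven (τ₂.1 (τ₁.1 x)) := by
    rw [isEven_nbr (τ₂.2 _).1, isEven_nbr (τ₁.2 _).1]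
    exact fun h => h hx
  have hxx : τ₂.1 (τ₁.1 x) ≠ x := by
    intro h
    rw [h] at hy
    exact hne hy.symm
  have hne' : τ₁.1 (τ₂.1 (τ₁.1 x)) ≠ τ₂.1 (τ₂.1 (τ₁.1 x)) := by
    intro h
    rw [hy] at h
    have := congrArg τ₁.1 h
    rw [(τ₁.2 _).2, (τ₁.2 _).2] at this
    exact hxx this
  have a1 := step_mem hε i (τ₁.2 x).1 (h₁ x hx).1
  have a2 := step_mem hε i (τ₂.2 (τ₂.1 (τ₁.1 x))).1 (h₂ _ hx').1
  have a3 := step_mem hε i (τ₁.2 (τ₂.1 (τ₁.1 x))).1 (h₁ _ hx').1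
  have b1 := fun he => step_ext hε hi (h₁ x hx).1 (h₁ x hx).2 (h₂ _ hx').1 (h₂ _ hx').2 he
  have b2 := fun he => step_ext hε hi (h₁ _ hx').1 (h₁ _ hx').2 (h₂ _ hx').1 (h₂ _ hx').2 he
  have c1 : ¬ (ε i * τ₁.1 x i - ε i * x i =
      ε i * τ₂.1 (τ₂.1 (τ₁.1 x)) i - ε i * τ₂.1 (τ₁.1 x) i) := by
    intro he
    have := b1 he
    rw [hy] at this
    exact hxx (sub_right_injective this).symm
  have c2 : ¬ (ε i * τ₁.1 (τ₂.1 (τ₁.1 x)) i - ε i * τ₂.1 (τ₁.1 x) i =
      ε i * τ₂.1 (τ₂.1 (τ₁.1 x)) i - ε i * τ₂.1 (τ₁.1 x) i) := fun he =>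
    hne' (sub_left_injective (b2 he))
  rw [hy] at a2 c1 c2
  exact ⟨hx', hne', by omega, by omega⟩

omit hε h₁ h₂ in
lemma nbr_ne {x y : V} (h : Nbr x y) : x ≠ y := by
  rintro rfl
  simp [Nbr] at h

lemma supp_infinite {x : V} (hx : IsEven x) (hne : τ₁.1 x ≠ τ₂.1 x) :
    ((unionGraph τ₁ τ₂).connectedComponentMk x).supp.Infinite := by
  obtain ⟨i, hi⟩ := exists_ne k
  let f : ℕ → V := fun n => (fun z => τ₂.1 (τ₁.1 z))^[n] x
  have key : ∀ n, IsEven (f n) ∧ τ₁.1 (f n) ≠ τ₂.1 (f n) ∧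
      ε i * τ₁.1 (f n) i - ε i * f n i = ε i * τ₁.1 x i - ε i * x i ∧
      ε i * f n i = ε i * x i + n * (2 * (ε i * τ₁.1 x i - ε i * x i) - 1) ∧
      (unionGraph τ₁ τ₂).Reachable x (f n) := by
    intro n
    induction n with
    | zero => exact ⟨hx, hne, rfl, by simp [f], SimpleGraph.Reachable.refl _⟩
    | succ n ih =>
      obtain ⟨e1, e2, e3, e4, e5⟩ := ih
      have hf : f (n + 1) = τ₂.1 (τ₁.1 (f n)) := Function.iterate_succ_apply' _ _ _
      obtain ⟨g1, g2, g3, g4⟩ := nxt hε h₁ h₂ hi e1 e2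
      rw [hf]
      refine ⟨g1, g2, g3.trans e3, ?_, ?_⟩
      · rw [g4, e3, e4]; push_cast; ring
      · refine (e5.trans (SimpleGraph.Adj.reachable (v := τ₁.1 (f n)) ?_)).trans
          (SimpleGraph.Adj.reachable ?_)
        · exact (SimpleGraph.fromRel_adj _ _ _).2 ⟨nbr_ne (τ₁.2 _).1, Or.inl (Or.inl rfl)⟩
        · exact (SimpleGraph.fromRel_adj _ _ _).2 ⟨nbr_ne (τ₂.2 _).1, Or.inl (Or.inr rfl)⟩
  refine Set.infinite_of_injective_forall_mem (f := f) ?_ fun n => ?_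
  · intro m n hmn
    have e1 := (key m).2.2.2.1
    have e2 := (key n).2.2.2.1
    rw [hmn, e2] at e1
    have e3 : (n : ℤ) * (2 * (ε i * τ₁.1 x i - ε i * x i) - 1) =
        m * (2 * (ε i * τ₁.1 x i - ε i * x i) - 1) := by omega
    have e4 := mul_right_cancel₀ (by omega) e3
    omega
  · rw [SimpleGraph.ConnectedComponent.mem_supp_iff, SimpleGraph.ConnectedComponent.eq]
    exact (key n).2.2.2.2.symm

omit hε h₂ in
lemma edge_k (z : V) : τ₁.1 z k = z k := by
  by_cases hz : IsEven z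
  · exact (h₁ z hz).2
  · have := (h₁ _ ((isEven_nbr (τ₁.2 z).1).2 hz)).2
    rw [(τ₁.2 z).2] at this
    exact this.symm

omit hε in
lemma plane {x y : V} (h : (unionGraph τ₁ τ₂).Reachable x y) : y k = x k := by
  have h' := (SimpleGraph.reachable_iff_reflTransGen _ _).1 h
  clear h
  induction h' with
  | refl => rfl
  | tail _ hadj ih =>
    rw [← ih]
    rcases ((SimpleGraph.fromRel_adj _ _ _).1 hadj).2 with (h | h) | (h | h) <;> rw [← h]
    · exact edge_k h₁ _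
    · exact edge_k h₂ _
    · exact (edge_k h₁ _).symm
    · exact (edge_k h₂ _).symm

lemma paths_infinite {x : V} (hx : IsEven x)
    (h : ∃ᶠ n : ℕ in atTop, τ₁.1 (x - n • Pi.single k 2) ≠ τ₂.1 (x - n • Pi.single k 2)) :
    (infinitePaths τ₁ τ₂).Infinite := by
  refine Set.infinite_of_injOn_mapsTo
    (f := fun n : ℕ => (unionGraph τ₁ τ₂).connectedComponentMk (x - n • Pi.single k 2))
    ?_ ?_ (Nat.frequently_atTop_iff_infinite.1 h)
  · intro m _ n _ hmn
    have := plane h₁ h₂ (SimpleGraph.ConnectedComponent.eq.1 hmn)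
    simp only [Pi.sub_apply, Pi.smul_apply, Pi.single_eq_same] at this
    simp only [nsmul_eq_mul] at this
    omega
  · intro n hn
    refine supp_infinite hε h₁ h₂ ?_ hn
    unfold IsEven at hx ⊢
    simp only [Pi.sub_apply, Pi.smul_apply, Finset.sum_sub_distrib, ← Finset.smul_sum,
      Finset.sum_pi_single', Finset.mem_univ, if_true]
    rw [nsmul_eq_mul]
    exact hx.sub (even_two.mul_left _)

end comb

lemma exists_even_ne {τ₁ τ₂ : Dimer} (h : τ₁ ≠ τ₂) : ∃ x, IsEven x ∧ τ₁.1 x ≠ τ₂.1 x := by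
  by_contra hc
  push Not at hc
  apply h
  apply Subtype.ext
  funext y
  by_cases hy : IsEven y
  · exact hc y hy
  · have h3 := hc _ ((isEven_nbr (τ₂.2 y).1).2 hy)
    rw [(τ₂.2 y).2] at h3
    have := congrArg τ₁.1 h3
    rw [(τ₁.2 _).2] at this
    exact this.symm

lemma meas_at (x : V) : Measurable fun τ : Dimer => τ.1 x :=
  (measurable_pi_apply x).comp measurable_subtype_coe

lemma meas_eq (x : V) : MeasurableSet {p : Dimer × Dimer | p.1.1 x = p.2.1 x} :=
  measurableSet_eq_fun ((meas_at x).comp measurable_fst) ((meas_at x).comp measurable_snd)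

lemma iter_shift (v : V) (n : ℕ) (τ : Dimer) (x : V) :
    ((shift v)^[n] τ).1 x = τ.1 (x - n • v) + n • v := by
  induction n generalizing x with
  | zero => simp
  | succ n ih =>
    rw [Function.iterate_succ_apply']
    change ((shift v)^[n] τ).1 (x - v) + v = _
    rw [ih, succ_nsmul, add_assoc, sub_sub, add_comm v (n • v)]

lemma ae_recur {ν₁ ν₂ : Measure Dimer} (h₁ : IsErgodicGibbs ν₁) (h₂ : IsErgodicGibbs ν₂) {v : V}
    (hv : IsEven v) : ∀ᵐ p ∂(ν₁.prod ν₂), ∀ x, p.1.1 x ≠ p.2.1 x →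
      ∃ᶠ n : ℕ in atTop, p.1.1 (x - n • v) ≠ p.2.1 (x - n • v) := by
  have := h₁.prob
  have := h₂.prob
  rw [ae_all_iff]
  intro x
  have hT := ((h₁.invariant v hv).prod (h₂.invariant v hv)).conservative
  filter_upwards [hT.ae_mem_imp_frequently_image_mem (meas_eq x).compl.nullMeasurableSet] with p hp hx
  refine (hp hx).mono fun n hn h => hn ?_
  simp only [Prod.map_iterate, Set.mem_ofPred_eq, Prod.map_fst, Prod.map_snd, iter_shift, h]

lemma integrable_coord (ν : Measure Dimer) [IsProbabilityMeasure ν] (i : Fin 3) :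
    Integrable (fun τ : Dimer => ((τ.1 0 i : ℤ) : ℝ)) ν := by
  refine Integrable.of_bound
    ((measurable_of_countable fun y : V => ((y i : ℤ) : ℝ)).comp (meas_at 0)).aestronglyMeasurable
    1 (ae_of_all _ fun τ => ?_)
  have h := (τ.2 0).1
  unfold Nbr at h
  simp only [Fin.sum_univ_three, Int.abs_eq_natAbs, Pi.zero_apply] at h
  have : |τ.1 0 i| ≤ 1 := by
    rw [Int.abs_eq_natAbs]
    rcases fin3 i with rfl | rfl | rfl <;> omega
  rw [Real.norm_eq_abs]
  exact_mod_cast this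

lemma ae_up {ν : Measure Dimer} (h : IsErgodicGibbs ν) {ε : Fin 3 → ℤ}
    (hε : ∀ i, ε i = 1 ∨ ε i = -1) (hs : ∑ i, (ε i : ℝ) * meanCurrent ν i = 1) :
    ∀ᵐ τ ∂ν, ∀ x, IsEven x → ht ε (τ.1 x) = ht ε x + 1 := by
  have := h.prob
  have hi : Integrable (fun τ : Dimer => ∑ i, (ε i : ℝ) * ((τ.1 0 i : ℤ) : ℝ)) ν :=
    integrable_finsetSum _ fun i _ => (integrable_coord ν i).const_mul _
  have hc : ∀ τ : Dimer, ∑ i, (ε i : ℝ) * ((τ.1 0 i : ℤ) : ℝ) = ((ht ε (τ.1 0) : ℤ) : ℝ) := by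
    intro τ
    simp [ht]
  have h00 : ht ε 0 = 0 := by simp [ht]
  have h0 : ∀ᵐ τ ∂ν, ht ε (τ.1 0) = 1 := by
    have hz := (integral_eq_zero_iff_of_nonneg
      (f := fun τ : Dimer => 1 - ∑ i, (ε i : ℝ) * ((τ.1 0 i : ℤ) : ℝ)) (fun τ => by
        have := ht_nbr hε (τ.2 0).1
        have h1 : ht ε (τ.1 0) ≤ 1 := by omega
        simp only [hc, Pi.zero_apply, sub_nonneg]
        exact_mod_cast h1) ((integrable_const _).sub hi)).1 (by
        rw [integral_sub (integrable_const _) hi,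
          integral_finsetSum _ fun i _ => (integrable_coord ν i).const_mul _]
        simp only [integral_const_mul, integral_const, probReal_univ, smul_eq_mul, mul_one]
        exact sub_eq_zero.2 hs.symm)
    filter_upwards [hz] with τ hτ
    simp only [hc, Pi.zero_apply, sub_eq_zero] at hτ
    exact_mod_cast hτ.symm
  rw [ae_all_iff]
  intro x
  by_cases hx : IsEven x
  · have hx' : IsEven (-x) := by
      unfold IsEven at hx ⊢
      simpa using hx
    filter_upwards [(h.invariant _ hx').quasiMeasurePreserving.ae h0] with τ hτ _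
    change ht ε (τ.1 (0 - -x) + -x) = 1 at hτ
    rw [zero_sub, neg_neg, ← sub_eq_add_neg, ht_sub] at hτ
    omega
  · exact ae_of_all _ fun _ h => absurd h hx

lemma ae_edge {ν : Measure Dimer} (h : IsErgodicGibbs ν) {s : Fin 3 → ℝ} (hm : meanCurrent ν = s)
    (hs : ∑ i, |s i| = 1) {k : Fin 3} (hk : s k = 0) :
    ∀ᵐ τ ∂ν, EdgeC (fun i => if 0 ≤ s i then 1 else -1) k τ := by
  have e1 := ae_up h (ε := fun i => if 0 ≤ s i then 1 else -1)
    (fun i => by split_ifs <;> simp) (by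
      rw [hm, ← hs]
      refine Finset.sum_congr rfl fun i _ => ?_
      split_ifs with h0
      · simp [abs_of_nonneg h0]
      · simp [abs_of_neg (not_le.1 h0)])
  have e2 := ae_up h (ε := fun i => if i = k then -1 else if 0 ≤ s i then 1 else -1)
    (fun i => by split_ifs <;> simp) (by
      rw [hm, ← hs]
      refine Finset.sum_congr rfl fun i _ => ?_
      split_ifs with h1 h0
      · simp [h1, hk]
      · simp [abs_of_nonneg h0]
      · simp [abs_of_neg (not_le.1 h0)])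
  filter_upwards [e1, e2] with τ a1 a2 x hx
  refine ⟨a1 x hx, ?_⟩
  have b1 := a1 x hx
  have b2 := a2 x hx
  unfold ht at b1 b2
  simp only [Fin.sum_univ_three] at b1 b2
  rcases fin3 k with rfl | rfl | rfl <;> simp [hk] at b1 b2 <;> omega

lemma shift_inj (v : V) : Function.Injective (shift v) := by
  intro σ τ h
  apply Subtype.ext
  funext x
  have : σ.1 (x + v - v) + v = τ.1 (x + v - v) + v := congrFun (congrArg Subtype.val h) (x + v)
  simpa using this

lemma rat_of_atom {ν : Measure Dimer} (h : IsErgodicGibbs ν) {τ₀ : Dimer} (h0 : ν {τ₀} ≠ 0)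
    (i : Fin 3) : ∃ q : ℚ, meanCurrent ν i = q := by
  have := h.prob
  have hfin : {τ : Dimer | ν {τ} = ν {τ₀}}.Finite := by
    refine (Measure.finite_const_le_meas_of_disjoint_iUnion ν (pos_iff_ne_zero.2 h0)
      (As := fun τ : Dimer => {τ}) (fun _ => measurableSet_singleton _)
      (fun a b hab => Set.disjoint_singleton.2 hab) (measure_ne_top _ _)).subset fun τ hτ => ?_
    exact le_of_eq (Eq.symm hτ)
  have hinv : ∀ v, IsEven v →
      shift v ⁻¹' {τ : Dimer | ν {τ} = ν {τ₀}} = {τ : Dimer | ν {τ} = ν {τ₀}} := by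
    intro v hv
    ext τ
    have : ν {shift v τ} = ν {τ} := by
      rw [← (h.invariant v hv).measure_preimage (measurableSet_singleton _).nullMeasurableSet]
      congr 1
      ext σ
      exact (shift_inj v).eq_iff
    simp only [Set.mem_preimage, Set.mem_ofPred_eq, this]
  have h1 : ν {τ : Dimer | ν {τ} = ν {τ₀}} = 1 := by
    refine (h.ergodic _ hfin.measurableSet fun v hv => by rw [hinv v hv]).resolve_left fun hz => ?_
    exact h0 (measure_mono_null (fun σ hσ => by rw [hσ]; exact rfl) hz)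
  have h2 : ν.restrict (hfin.toFinset : Set Dimer) = ν := by
    refine Measure.restrict_eq_self_of_ae_mem ?_
    rw [hfin.coe_toFinset]
    exact (mem_ae_iff_prob_eq_one hfin.measurableSet).2 h1
  have h3 : ∀ g : Dimer → ℝ, Integrable g ν →
      ∫ τ, g τ ∂ν = ν.real {τ₀} * ∑ τ ∈ hfin.toFinset, g τ := by
    intro g hg
    conv_lhs => rw [← h2]
    rw [setIntegral_finset _ hg.integrableOn, Finset.mul_sum]
    refine Finset.sum_congr rfl fun τ hτ => ?_
    rw [smul_eq_mul, Measure.real, Measure.real, (hfin.mem_toFinset.1 hτ : ν {τ} = ν {τ₀})]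
  have h4 := h3 (fun _ => 1) (integrable_const _)
  simp only [integral_const, probReal_univ, smul_eq_mul, mul_one, Finset.sum_const,
    nsmul_eq_mul] at h4
  refine ⟨(∑ τ ∈ hfin.toFinset, τ.1 0 i : ℤ) / (hfin.toFinset.card : ℚ), ?_⟩
  rw [meanCurrent, h3 _ (integrable_coord ν i), eq_inv_of_mul_eq_one_left h4.symm]
  push_cast
  ring

theorem edge (s : Fin 3 → ℝ) (hs : ∑ i, |s i| = 1) (k : Fin 3) (hk : s k = 0) :
    (∀ ν₁ ν₂ : Measure Dimer, IsErgodicGibbs ν₁ → IsErgodicGibbs ν₂ → meanCurrent ν₁ = s →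
      meanCurrent ν₂ = s → ∀ᵐ p ∂(ν₁.prod ν₂), (infinitePaths p.1 p.2).Infinite) ↔
    ∃ i, Irrational (s i) := by
  constructor
  · intro H
    by_contra hc
    push Not at hc
    simp only [Irrational, not_not, Set.mem_range] at hc
    choose q hq using hc
    obtain ⟨ν, hν, hm, hpos⟩ := main q (by
      have : ((∑ i, |q i| : ℚ) : ℝ) = 1 := by
        push_cast
        simp only [hq, hs]
      exact_mod_cast this)
    have hm' : meanCurrent ν = s := hm.trans (funext hq)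
    refine hpos.ne' (measure_mono_null (fun p hp => ?_) (ae_iff.1 (H ν ν hν hν hm' hm')))
    simp only [Set.mem_ofPred_eq] at hp ⊢
    rw [hp]
    exact Set.not_infinite.2 Set.finite_empty
  · rintro ⟨i, hi⟩ ν₁ ν₂ h₁ h₂ m₁ m₂
    have := h₁.prob
    have := h₂.prob
    have hd : ∀ᵐ p ∂(ν₁.prod ν₂), p.1 ≠ p.2 := by
      have hD : MeasurableSet {p : Dimer × Dimer | p.1 = p.2} := by
        have : {p : Dimer × Dimer | p.1 = p.2} = ⋂ x, {p : Dimer × Dimer | p.1.1 x = p.2.1 x} := by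
          ext p
          simp only [Set.mem_ofPred_eq, Set.mem_iInter, Subtype.ext_iff, funext_iff]
        rw [this]
        exact MeasurableSet.iInter meas_eq
      rw [ae_iff]
      simp only [ne_eq, not_not]
      refine (Measure.measure_prod_null hD).2 (ae_of_all _ fun τ => ?_)
      by_contra hz
      obtain ⟨q, hq⟩ := rat_of_atom h₂ (τ₀ := τ) (by
        refine fun h => hz (measure_mono_null (fun σ hσ => ?_) h)
        exact Eq.symm hσ) i
      exact hi ⟨q, by rw [← hq, m₂]⟩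
    have hv : IsEven (Pi.single k 2) := by
      unfold IsEven
      simp
    filter_upwards [hd, ae_recur h₁ h₂ hv,
      Measure.quasiMeasurePreserving_fst.ae (ae_edge h₁ m₁ hs hk),
      Measure.quasiMeasurePreserving_snd.ae (ae_edge h₂ m₂ hs hk)] with p a1 a2 a3 a4
    obtain ⟨x, hx, hne⟩ := exists_even_ne a1
    exact paths_infinite (fun i => by split_ifs <;> simp) a3 a4 hx (a2 x hne)

end Pool.Agent.Work.MP_5cb0a4_pr.Edge
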