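import Pool.Agent.Work.MP_5cb0a4_pr.E.Edge

/-! Non-vacuity: every boundary point of the octahedron is the mean current of an ergodic Gibbs
measure (frozen stacks driven by an irrational rotation). -/

open MeasureTheory ProbabilityTheory Filter

namespace Pool.Agent.Work.MP_5cb0a4_pr.Edge

variable {ε : Fin 3 → ℤ} (hε : ∀ i, ε i = 1 ∨ ε i = -1)

lemma measurable_tau : Measurable (tau hε) := by
  refine Measurable.subtype_mk (measurable_pi_lambda _ fun x => ?_)
  exact (measurable_of_countable fun l : Fin 3 =>
    if Even (ht ε x) then x + Pi.single l (ε l) else x - Pi.single l (ε l)).comp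
      (measurable_pi_apply (X := fun _ : ℤ => Fin 3) (ht ε x / 2))

include hε in
lemma exists_far (Λ : Finset V) (h : ℤ) : ∃ x : V, ht ε x = 2 * h ∧ x ∉ Λ := by
  have e0 : ε 0 * ε 0 = 1 := by rcases hε 0 with h | h <;> simp [h]
  have e1 : ε 1 * ε 1 = 1 := by rcases hε 1 with h | h <;> simp [h]
  have hinj : Function.Injective fun n : ℤ => (![ε 0 * (2 * h - n), ε 1 * n, 0] : V) := by
    intro m n hmn
    have := congrFun hmn 1
    simp only [Matrix.cons_val_one, Matrix.cons_val_zero] at this
    exact mul_left_cancel₀ (by rcases hε 1 with h | h <;> simp [h]) this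
  obtain ⟨x, ⟨n, rfl⟩, hx⟩ := (Set.infinite_range_of_injective hinj).exists_notMem_finset Λ
  refine ⟨_, ?_, hx⟩
  simp only [ht, Fin.sum_univ_three, Matrix.cons_val_zero, Matrix.cons_val_one, Matrix.cons_val]
  rw [← mul_assoc, ← mul_assoc, e0, e1]
  ring

lemma gibbs_map {Ω : Type} [MeasurableSpace Ω] (μ : Measure Ω) [IsProbabilityMeasure μ]
    (F : Ω → ℤ → Fin 3) (hF : Measurable F) : IsGibbs (μ.map fun θ => tau hε (F θ)) := by
  classical
  intro Λ A hA
  have hΦ : Measurable fun θ => tau hε (F θ) := (measurable_tau hε).comp hF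
  have := Measure.isProbabilityMeasure_map (μ := μ) hΦ.aemeasurable
  have hle : outsideAlg Λ ≤ (inferInstance : MeasurableSpace Dimer) :=
    (measurable_outside Λ).comap_le
  choose x hx hxΛ using exists_far hε Λ
  let R : (V × V → Prop) → Dimer := fun o => tau hε fun h =>
    if o (x h, x h + Pi.single 0 (ε 0)) then 0 else if o (x h, x h + Pi.single 1 (ε 1)) then 1 else 2
  have hR : Measurable R := by
    refine (measurable_tau hε).comp (measurable_pi_lambda _ fun h => ?_)
    refine Measurable.ite (measurableSet_setOfPred.2 (measurable_pi_apply _)) measurable_const ?_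
    exact Measurable.ite (measurableSet_setOfPred.2 (measurable_pi_apply _)) measurable_const
      measurable_const
  have hrec : ∀ f, R (outside Λ (tau hε f)) = tau hε f := by
    intro f
    refine congrArg (tau hε) (funext fun h => ?_)
    have he : Even (ht ε (x h)) := by rw [hx]; exact even_two_mul h
    have hd : ht ε (x h) / 2 = h := by rw [hx]; omega
    have key : ∀ l, outside Λ (tau hε f) (x h, x h + Pi.single l (ε l)) ↔ f h = l := by
      intro l
      simp only [outside, tau_even hε f he, hd, hxΛ h, false_and, not_false_eq_true, and_true,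
        add_right_inj]
      refine ⟨fun h1 => ?_, fun h1 => by rw [h1]⟩
      by_contra hne
      have := congrFun h1 l
      rw [Pi.single_eq_same, Pi.single_eq_of_ne (Ne.symm hne)] at this
      rcases hε l with h2 | h2 <;> omega
    simp only [key]
    rcases fin3 (f h) with h1 | h1 | h1 <;> simp [h1]
  have hae : ∀ᵐ τ ∂(μ.map fun θ => tau hε (F θ)), R (outside Λ τ) = τ := by
    refine (ae_map_iff hΦ.aemeasurable ?_).2 (ae_of_all _ fun θ => hrec _)
    have : {τ : Dimer | R (outside Λ τ) = τ} = ⋂ y, {τ : Dimer | (R (outside Λ τ)).1 y = τ.1 y} := by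
      ext p
      simp only [Set.mem_ofPred_eq, Set.mem_iInter, Subtype.ext_iff, funext_iff]
    rw [this]
    exact MeasurableSet.iInter fun y =>
      measurableSet_eq_fun ((meas_at y).comp (hR.comp (measurable_outside Λ))) (meas_at y)
  let B : Set Dimer := outside Λ ⁻¹' (R ⁻¹' A)
  have hB : MeasurableSet[outsideAlg Λ] B := ⟨_, hR hA, rfl⟩
  have h1 : A.indicator (fun _ => (1 : ℝ)) =ᵐ[μ.map fun θ => tau hε (F θ)]
      B.indicator (fun _ => (1 : ℝ)) := by
    filter_upwards [hae] with τ hτ
    simp only [Set.indicator_apply, B, Set.mem_preimage, hτ]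
  have h2 : (μ.map fun θ => tau hε (F θ))[B.indicator (fun _ => (1 : ℝ)) | outsideAlg Λ] =
      B.indicator (fun _ => (1 : ℝ)) := by
    refine condExp_of_stronglyMeasurable hle (stronglyMeasurable_const.indicator hB) ?_
    exact (integrable_const _).indicator (hle _ hB)
  refine (condExp_congr_ae h1).trans ?_
  rw [h2]
  refine h1.symm.trans ?_
  filter_upwards [hae] with τ hτ
  have hc : completions Λ τ = {τ} := by
    ext σ
    simp only [completions, Set.mem_ofPred_eq, Set.mem_singleton_iff]
    refine ⟨fun h => ?_, fun h => by rw [h]⟩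
    rw [← hτ] at h ⊢
    exact rigid hε _ Λ σ h
  rw [hc, Measure.real, uniformOn_singleton]
  by_cases h : τ ∈ A <;> simp [h]

theorem exists_egm (s : Fin 3 → ℝ) (hs : ∑ i, |s i| = 1) :
    ∃ ν : Measure Dimer, IsErgodicGibbs ν ∧ meanCurrent ν = s := by
  classical
  let ε : Fin 3 → ℤ := fun i => if 0 ≤ s i then 1 else -1
  have hε : ∀ i, ε i = 1 ∨ ε i = -1 := fun i => by
    simp only [ε]; split_ifs <;> simp
  rw [Fin.sum_univ_three] at hs
  have p0 := abs_nonneg (s 0)
  have p1 := abs_nonneg (s 1)
  have p2 := abs_nonneg (s 2)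
  have hvol : IsProbabilityMeasure (volume : Measure UnitAddCircle) :=
    ⟨UnitAddCircle.measure_univ⟩
  let α : UnitAddCircle := ((√2 : ℝ) : UnitAddCircle)
  let I : Set UnitAddCircle := Metric.closedBall 0 (|s 0| / 2)
  let J : Set UnitAddCircle := Metric.closedBall 0 ((|s 0| + |s 1|) / 2)
  have hI : MeasurableSet I := Metric.isClosed_closedBall.measurableSet
  have hJ : MeasurableSet J := Metric.isClosed_closedBall.measurableSet
  have hIJ : I ⊆ J := Metric.closedBall_subset_closedBall (by linarith)
  have vI : volume.real I = |s 0| := by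
    rw [Measure.real, AddCircle.volume_closedBall, min_eq_right (by linarith),
      ENNReal.toReal_ofReal (by linarith)]
    ring
  have vJ : volume.real J = |s 0| + |s 1| := by
    rw [Measure.real, AddCircle.volume_closedBall, min_eq_right (by linarith),
      ENNReal.toReal_ofReal (by linarith)]
    ring
  let c : UnitAddCircle → Fin 3 := fun θ => if θ ∈ I then 0 else if θ ∈ J then 1 else 2
  have hc : Measurable c :=
    Measurable.ite hI measurable_const (Measurable.ite hJ measurable_const measurable_const)
  let F : UnitAddCircle → ℤ → Fin 3 := fun θ h => c (θ + h • α)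
  have hF : Measurable F := measurable_pi_lambda _ fun h => hc.comp (measurable_add_const _)
  have hΦ : Measurable fun θ => tau hε (F θ) := (measurable_tau hε).comp hF
  have hsh : ∀ v, IsEven v → ∀ θ,
      shift v (tau hε (F θ)) = tau hε (F (θ + (-(ht ε v / 2)) • α)) := by
    intro v hv θ
    rw [shift_tau hε _ hv]
    refine congrArg (tau hε) (funext fun k => congrArg c ?_)
    rw [add_assoc, ← add_smul]
    congr 2
    ring
  have hP := Measure.isProbabilityMeasure_map (μ := (volume : Measure UnitAddCircle))
    hΦ.aemeasurable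
  refine ⟨volume.map fun θ => tau hε (F θ), ⟨hP, gibbs_map hε _ F hF, fun v hv => ?_,
    fun A hA hinv => ?_⟩, ?_⟩
  · refine ⟨measurable_shift v, ?_⟩
    rw [Measure.map_map (measurable_shift v) hΦ]
    have : (shift v ∘ fun θ => tau hε (F θ)) =
        (fun θ => tau hε (F θ)) ∘ fun θ => θ + (-(ht ε v / 2)) • α := funext (hsh v hv)
    rw [this, ← Measure.map_map hΦ (measurable_add_const _), map_add_right_eq_self]
  · have herg : Ergodic (fun θ : UnitAddCircle => θ + α) volume := by
      rw [AddCircle.ergodic_add_right, addOrderOf_eq_zero_iff,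
        AddCircle.isOfFinAddOrder_iff_exists_rat_eq_div]
      rintro ⟨q, hq⟩
      exact irrational_sqrt_two ⟨q, by simpa using hq⟩
    have hv : ht ε (Pi.single 0 (ε 0 * (-2))) = -2 := by
      have : ε 0 * ε 0 = 1 := by rcases hε 0 with h | h <;> simp [h]
      simp only [ht, Fin.sum_univ_three]
      simp [← mul_assoc, this]
    have hve : IsEven (Pi.single 0 (ε 0 * (-2))) := (even_ht_iff hε _).1 (by rw [hv]; decide)
    have h1 := ae_of_ae_map hΦ.aemeasurable (hinv _ hve)
    have h2 : (fun θ : UnitAddCircle => θ + α) ⁻¹' ((fun θ => tau hε (F θ)) ⁻¹' A) =ᵐ[volume]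
        (fun θ => tau hε (F θ)) ⁻¹' A := by
      filter_upwards [h1] with θ hθ
      have h3 := hsh _ hve θ
      rw [hv, show (-((-2 : ℤ) / 2)) = 1 by decide, one_smul] at h3
      change (tau hε (F (θ + α)) ∈ A) = (tau hε (F θ) ∈ A)
      rw [← h3]
      exact hθ
    rw [Measure.map_apply hΦ hA]
    rcases herg.quasiErgodic.ae_empty_or_univ₀ (hΦ hA).nullMeasurableSet h2 with h | h
    · left
      rw [measure_congr h, measure_empty]
    · right
      rw [measure_congr h, measure_univ]
  · funext i
    rw [meanCurrent, integral_map hΦ.aemeasurable (integrable_coord _ i).aestronglyMeasurable]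
    have h0 : ht ε 0 = 0 := by simp [ht]
    have h1 : ∀ θ, (((tau hε (F θ)).1 0 i : ℤ) : ℝ) =
        (c ⁻¹' {i}).indicator (fun _ => (ε i : ℝ)) θ := by
      intro θ
      rw [tau_even hε _ (by rw [h0]; exact Even.zero), h0]
      simp only [Int.zero_ediv, zero_add, F, zero_smul, add_zero, Pi.single_apply,
        Set.indicator_apply, Set.mem_preimage, Set.mem_singleton_iff]
      split_ifs with h2 h3 h3
      · rw [← h2]
      · exact absurd h2.symm h3
      · exact absurd h3.symm h2
      · simp
    simp only [h1]
    rw [integral_indicator_const _ (hc (measurableSet_singleton i))]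
    have h2 : volume.real (c ⁻¹' {i}) = |s i| := by
      rcases fin3 i with rfl | rfl | rfl
      · rw [← vI]
        congr 1
        ext θ
        by_cases a : θ ∈ I <;> by_cases b : θ ∈ J <;> simp [c, a, b]
      · have : c ⁻¹' {1} = J \ I := by
          ext θ
          by_cases a : θ ∈ I <;> by_cases b : θ ∈ J <;> simp [c, a, b]
        rw [this, measureReal_diff hIJ hI, vI, vJ]
        ring
      · have : c ⁻¹' {2} = Jᶜ := by
          ext θ
          by_cases a : θ ∈ I
          · simp [c, a, hIJ a]
          · by_cases b : θ ∈ J <;> simp [c, a, b]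
        rw [this, probReal_compl_eq_one_sub hJ, vJ]
        linarith
    rw [h2, smul_eq_mul]
    simp only [ε]
    split_ifs with h4
    · simp [abs_of_nonneg h4]
    · simp [abs_of_neg (not_le.1 h4)]

end Pool.Agent.Work.MP_5cb0a4_pr.Edge
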